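import Pool.Agent.Q205.NH.Stm

set_option autoImplicit false

/-! Averaging over the multipliers. -/

namespace Pool.Agent.Q239.NH

open Pool.Agent.Q205.NH

lemma exists_cut (D : Finset ℕ) (m : ℕ) (hm : m ≤ D.card) :
    ∃ t, (D.filter (· < t)).card = m := by
  classical
  have hstep : ∀ t, (D.filter (· < t + 1)).card ≤ (D.filter (· < t)).card + 1 := by
    intro t
    have : D.filter (· < t + 1) ⊆ insert t (D.filter (· < t)) := by
      intro x hx
      simp only [Finset.mem_filter, Finset.mem_insert] at hx ⊢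
      by_cases h : x = t
      · exact Or.inl h
      · exact Or.inr ⟨hx.1, by omega⟩
    exact (Finset.card_le_card this).trans (Finset.card_insert_le _ _)
  have hex : ∃ t, m ≤ (D.filter (· < t)).card := by
    obtain ⟨b, hb⟩ := D.exists_nat_subset_range
    refine ⟨b, ?_⟩
    rw [Finset.filter_true_of_mem (fun x hx => Finset.mem_range.1 (hb hx))]
    exact hm
  have h1 := Nat.find_spec hex
  refine ⟨Nat.find hex, le_antisymm ?_ h1⟩
  rcases Nat.eq_zero_or_pos (Nat.find hex) with h0 | h0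
  · rw [h0]; simp
  · have h2 := Nat.find_min hex (m := Nat.find hex - 1) (by omega)
    have h3 := hstep (Nat.find hex - 1)
    rw [Nat.sub_add_cancel h0] at h3
    omega

lemma notconst (P : Finset ℕ) (j r K : ℕ)
    (h : ¬ ∃ r, ∀ k ∈ P, (j * k + r) % 2 ^ (K + 1) < 2 ^ K) :
    ∃ k ∈ P, ∃ k' ∈ P, side K (j * k + r) ≠ side K (j * k' + r) := by
  by_contra hcon
  push Not at hcon
  push Not at h
  obtain ⟨k0, hk0, h0⟩ := h r
  have h1 : ∀ k ∈ P, 2 ^ K ≤ (j * k + r) % 2 ^ (K + 1) := by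
    intro k hk
    have h2 := hcon k hk k0 hk0
    unfold side at h2
    rw [decide_eq_decide] at h2
    by_contra h3
    exact absurd (h2.1 (not_le.1 h3)) (not_lt.2 h0)
  obtain ⟨k1, hk1, h4⟩ := h (r + 2 ^ K)
  have h5 := h1 k1 hk1
  have h6 : (j * k1 + r) % 2 ^ (K + 1) < 2 ^ (K + 1) := Nat.mod_lt _ (by positivity)
  have h7 : (j * k1 + (r + 2 ^ K)) % 2 ^ (K + 1) =
      ((j * k1 + r) % 2 ^ (K + 1) + 2 ^ K) % 2 ^ (K + 1) := by
    rw [← add_assoc, Nat.mod_add_mod]
  rw [h7] at h4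
  have h8 : (2 : ℕ) ^ (K + 1) = 2 * 2 ^ K := by rw [pow_succ]; ring
  rw [h8] at h4 h5 h6
  have h9 : ((j * k1 + r) % (2 * 2 ^ K) + 2 ^ K) % (2 * 2 ^ K) =
      (j * k1 + r) % (2 * 2 ^ K) + 2 ^ K - 2 * 2 ^ K := by
    rw [Nat.mod_eq_sub_mod (by omega), Nat.mod_eq_of_lt (by omega)]
  omega

lemma div_inj {M : ℕ} {d d' : ℕ} (h : d % M = d' % M) (h1 : d / M = d' / M) : d = d' := by
  rw [← Nat.div_add_mod d M, ← Nat.div_add_mod d' M, h, h1]

open Classical in
lemma bad_card (h : S_HC) {M L : ℕ} (P : Finset ℕ) (hP : P.card = 80) (hL : ∀ d ∈ P, d < L)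
    (hM : ∀ d ∈ P, ∀ d' ∈ P, d % M = d' % M) :
    8 * ((Finset.range (2 ^ (L + 1))).filter (fun j => ∃ r, ∀ k ∈ P.image (· / M),
      (j * k + r) % 2 ^ (L + 1) < 2 ^ L)).card ≤ 2 ^ (L + 1) := by
  have h1 : (P.image (· / M)).card = 80 := by
    rw [Finset.card_image_of_injOn, hP]
    intro a ha b hb hab
    exact div_inj (hM a ha b hb) hab
  have h2 := h L (P.image (· / M)) (by
    intro d hd
    obtain ⟨a, ha, rfl⟩ := Finset.mem_image.1 hd
    have h3 : a / M ≤ a := Nat.div_le_self _ _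
    have h4 := hL a ha
    have h5 : L < 2 ^ L := Nat.lt_two_pow_self
    show a / M < 2 ^ L
    omega)
  rw [h1] at h2
  omega

open Classical in
theorem av (h : S_HC) : S_AV := by
  intro α M L hM S D hD
  refine ⟨L, ?_⟩
  set N := 2 ^ (L + 1) with hN
  have hN0 : 0 < N := by positivity
  have key : ∀ s ∈ S, 4 * ((Finset.range N).filter (fun j => ¬ Good M L j L (D s))).card ≤ N := by
    intro s hs
    obtain ⟨h1, h2, h3⟩ := hD s hs
    obtain ⟨t, ht⟩ := exists_cut (D s) 80 (by omega)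
    set D1 := (D s).filter (· < t) with hD1
    set D2 := D s \ D1 with hD2
    have m2 : ∀ d ∈ D2, d ∈ D s ∧ t ≤ d := by
      intro d hd
      rw [hD2, Finset.mem_sdiff, hD1, Finset.mem_filter] at hd
      exact ⟨hd.1, not_lt.1 fun h' => hd.2 ⟨hd.1, h'⟩⟩
    have hc2 : D2.card = 80 := by
      rw [hD2, Finset.card_sdiff_of_subset (Finset.filter_subset _ _), h1, ht]
    have b1 := bad_card h (M := M) (L := L) D1 ht
      (fun d hd => h2 d (Finset.mem_filter.1 hd).1)
      (fun d hd d' hd' => h3 d (Finset.mem_filter.1 hd).1 d' (Finset.mem_filter.1 hd').1)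
    have b2 := bad_card h (M := M) (L := L) D2 hc2
      (fun d hd => h2 d (m2 d hd).1)
      (fun d hd d' hd' => h3 d (m2 d hd).1 d' (m2 d' hd').1)
    set B1 := (Finset.range (2 ^ (L + 1))).filter (fun j => ∃ r, ∀ k ∈ D1.image (· / M),
      (j * k + r) % 2 ^ (L + 1) < 2 ^ L) with hB1
    set B2 := (Finset.range (2 ^ (L + 1))).filter (fun j => ∃ r, ∀ k ∈ D2.image (· / M),
      (j * k + r) % 2 ^ (L + 1) < 2 ^ L) with hB2
    have hsub : (Finset.range N).filter (fun j => ¬ Good M L j L (D s)) ⊆ B1 ∪ B2 := by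
      intro j hj
      obtain ⟨hj1, hj2⟩ := Finset.mem_filter.1 hj
      by_contra hcon
      rw [Finset.mem_union, not_or] at hcon
      apply hj2
      have n1 : ¬ ∃ r, ∀ k ∈ D1.image (· / M), (j * k + r) % 2 ^ (L + 1) < 2 ^ L :=
        fun h' => hcon.1 (Finset.mem_filter.2 ⟨hj1, h'⟩)
      have n2 : ¬ ∃ r, ∀ k ∈ D2.image (· / M), (j * k + r) % 2 ^ (L + 1) < 2 ^ L :=
        fun h' => hcon.2 (Finset.mem_filter.2 ⟨hj1, h'⟩)
      refine ⟨h3, ?_⟩
      intro q _ r _
      rcases le_total t q with hq | hq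
      · left
        obtain ⟨k, hk, k', hk', hne⟩ := notconst _ j r L n1
        obtain ⟨d, hd, rfl⟩ := Finset.mem_image.1 hk
        obtain ⟨d', hd', rfl⟩ := Finset.mem_image.1 hk'
        obtain ⟨e1, e2⟩ := Finset.mem_filter.1 hd
        obtain ⟨e3, e4⟩ := Finset.mem_filter.1 hd'
        exact ⟨d, e1, d', e3, by omega, by omega, hne⟩
      · right
        obtain ⟨k, hk, k', hk', hne⟩ := notconst _ j r L n2
        obtain ⟨d, hd, rfl⟩ := Finset.mem_image.1 hk
        obtain ⟨d', hd', rfl⟩ := Finset.mem_image.1 hk'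
        obtain ⟨e1, e2⟩ := m2 d hd
        obtain ⟨e3, e4⟩ := m2 d' hd'
        exact ⟨d, e1, d', e3, by omega, by omega, hne⟩
    have h4 := (Finset.card_le_card hsub).trans (Finset.card_union_le _ _)
    omega
  have hsum : ∑ j ∈ Finset.range N, 4 * (S.filter (fun s => ¬ Good M L j L (D s))).card ≤
      ∑ j ∈ Finset.range N, S.card := by
    rw [← Finset.mul_sum]
    have h5 : ∑ j ∈ Finset.range N, (S.filter (fun s => ¬ Good M L j L (D s))).card =
        ∑ s ∈ S, ((Finset.range N).filter (fun j => ¬ Good M L j L (D s))).card := by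
      simp only [Finset.card_filter]
      exact Finset.sum_comm
    rw [h5, Finset.mul_sum, Finset.sum_const, Finset.card_range, smul_eq_mul]
    calc ∑ s ∈ S, 4 * ((Finset.range N).filter (fun j => ¬ Good M L j L (D s))).card
        ≤ ∑ s ∈ S, N := Finset.sum_le_sum key
      _ = N * S.card := by rw [Finset.sum_const, smul_eq_mul, mul_comm]
  obtain ⟨j, hj, hj1⟩ := Finset.exists_le_of_sum_le ⟨0, Finset.mem_range.2 hN0⟩ hsum
  refine ⟨j, Finset.mem_range.1 hj, ?_⟩
  convert hj1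

end Pool.Agent.Q239.NH
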