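import Pool.Agent.Q205.NH.Stm

set_option autoImplicit false

/-! Lebesgue density for cylinders of Cantor space. -/

namespace Pool.Agent.Q239.NH

open Pool.Agent.Q205.NH Pool.Agent.H715R3.Disp MeasureTheory
open scoped ENNReal

/-- flip the bits where `g` is true -/
def flip (g : ℕ → Bool) (B : ℕ → Bool) : ℕ → Bool := fun i => xor (B i) (g i)

lemma coin_map (b : Bool) : (PMF.uniformOfFintype Bool).toMeasure.map (fun x => xor x b) =
    (PMF.uniformOfFintype Bool).toMeasure := by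
  refine Measure.ext_of_singleton fun a => ?_
  rw [Measure.map_apply (measurable_of_finite _) (MeasurableSet.singleton a), coin]
  have h : (fun x => xor x b) ⁻¹' {a} = {xor a b} := by
    ext x
    simp only [Set.mem_preimage, Set.mem_singleton_iff]
    cases x <;> cases a <;> cases b <;> simp
  rw [h, coin]

lemma flip_meas (g : ℕ → Bool) : Measurable (flip g) := by
  unfold flip
  exact measurable_pi_lambda _ fun i => (measurable_of_finite (fun x => xor x (g i))).comp
    (measurable_pi_apply i)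

lemma flip_mp (g : ℕ → Bool) : MeasurePreserving (flip g) mu mu := by
  refine ⟨flip_meas g, ?_⟩
  have h := Measure.infinitePi_map_pi (μ := fun _ : ℕ => (PMF.uniformOfFintype Bool).toMeasure)
    (f := fun i => fun x => xor x (g i)) (fun i => measurable_of_finite _)
  have h1 : (fun i : ℕ => (PMF.uniformOfFintype Bool).toMeasure.map (fun x => xor x (g i))) =
      fun _ => (PMF.uniformOfFintype Bool).toMeasure := funext fun i => coin_map (g i)
  unfold flip mu
  rw [h]
  congr 1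

/-- the cylinder of a string -/
def cyl {n : ℕ} (τ : Fin n → Bool) : Set (ℕ → Bool) := {B | ∀ i : Fin n, B i = τ i}

lemma cyl_meas {n : ℕ} (τ : Fin n → Bool) : MeasurableSet (cyl τ) := by
  have : cyl τ = ⋂ i : Fin n, {B : ℕ → Bool | B i = τ i} := by
    ext B; simp [cyl]
  rw [this]
  exact MeasurableSet.iInter fun i => measurableSet_eq_fun (measurable_pi_apply _) measurable_const

lemma cyl_mu {n : ℕ} (τ : Fin n → Bool) : mu (cyl τ) = (2⁻¹ : ℝ≥0∞) ^ n := by
  rw [← cyl_measure (fun i => if h : i < n then τ ⟨i, h⟩ else false) n]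
  congr 1
  ext B
  simp only [cyl, Set.mem_ofPred_eq]
  constructor
  · intro h i hi
    simp only [hi, dite_true]
    exact h ⟨i, hi⟩
  · intro h i
    have := h i i.2
    simpa using this

lemma cyl_disj {n : ℕ} {τ τ' : Fin n → Bool} (h : τ ≠ τ') : Disjoint (cyl τ) (cyl τ') := by
  rw [Set.disjoint_left]
  intro B h1 h2
  exact h (funext fun i => (h1 i).symm.trans (h2 i))

lemma cyl_cover (n : ℕ) (B : ℕ → Bool) : B ∈ cyl (fun i : Fin n => B i) := fun _ => rfl

lemma overwrite {n : ℕ} (σ : Fin n → Bool) {A : Set (ℕ → Bool)} (hA : MeasurableSet A) :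
    mu {B | ow (List.ofFn σ) B ∈ A} = 2 ^ n * mu (A ∩ cyl σ) := by
  set G : (Fin n → Bool) → ℕ → Bool := fun τ i =>
    if h : i < n then xor (τ ⟨i, h⟩) (σ ⟨i, h⟩) else false with hG
  have h1 : {B | ow (List.ofFn σ) B ∈ A} = ⋃ τ : Fin n → Bool, flip (G τ) ⁻¹' (A ∩ cyl σ) ∩ cyl τ := by
    ext B
    simp only [Set.mem_ofPred_eq, Set.mem_iUnion, Set.mem_inter_iff, Set.mem_preimage]
    have key : ∀ τ : Fin n → Bool, B ∈ cyl τ → flip (G τ) B = ow (List.ofFn σ) B := by
      intro τ hτ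
      funext i
      unfold flip ow
      by_cases hi : i < n
      · have h2 : B i = τ ⟨i, hi⟩ := hτ ⟨i, hi⟩
        simp only [hG, hi, dite_true, List.length_ofFn, if_true]
        rw [h2]
        rw [List.getD_eq_getElem _ _ (by simpa using hi)]
        simp
      · simp [hG, hi]
    constructor
    · intro h
      refine ⟨fun i => B i, ⟨?_, ?_⟩, cyl_cover n B⟩
      · rw [key _ (cyl_cover n B)]; exact h
      · rw [key _ (cyl_cover n B)]
        intro i
        unfold ow
        rw [if_pos (by simp), List.getD_eq_getElem _ _ (by simp)]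
        simp
    · rintro ⟨τ, ⟨h2, _⟩, h3⟩
      rw [key τ h3] at h2
      exact h2
  have hC : ∀ τ : Fin n → Bool, flip (G τ) ⁻¹' (A ∩ cyl σ) ⊆ cyl τ := by
    intro τ B hB i
    have h2 : flip (G τ) B i = σ i := hB.2 i
    unfold flip at h2
    simp only [hG, i.2, dite_true] at h2
    revert h2
    cases B i <;> cases τ i <;> cases σ i <;> simp
  have h4 : {B | ow (List.ofFn σ) B ∈ A} = ⋃ τ : Fin n → Bool, flip (G τ) ⁻¹' (A ∩ cyl σ) := by
    rw [h1]
    congr 1
    funext τ
    exact Set.inter_eq_left.2 (hC τ)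
  rw [h4, measure_iUnion]
  · have h5 : ∀ τ : Fin n → Bool, mu (flip (G τ) ⁻¹' (A ∩ cyl σ)) = mu (A ∩ cyl σ) := by
      intro τ
      exact (flip_mp (G τ)).measure_preimage (hA.inter (cyl_meas σ)).nullMeasurableSet
    rw [tsum_fintype, Finset.sum_congr rfl (fun τ _ => h5 τ), Finset.sum_const, nsmul_eq_mul]
    simp
  · intro τ τ' hne
    exact (cyl_disj hne).mono (hC τ) (hC τ')
  · intro τ
    exact flip_meas _ (hA.inter (cyl_meas σ))

open Classical in
lemma le_open {A : Set (ℕ → Bool)}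
    (h : ∀ (n : ℕ) (σ : Fin n → Bool), mu (A ∩ cyl σ) ≤ 3 / 4 * mu (cyl σ))
    {U : Set (ℕ → Bool)} (hU : IsOpen U) (hAU : A ⊆ U) : mu A ≤ 3 / 4 * mu U := by
  set V : ℕ → Set (ℕ → Bool) := fun n => A ∩ {B | cyl (fun i : Fin n => B i) ⊆ U} with hV
  have hmono : Monotone V := by
    intro n m hnm B hB
    refine ⟨hB.1, fun B' hB' => hB.2 ?_⟩
    intro i
    exact hB' ⟨i, lt_of_lt_of_le i.2 hnm⟩
  have hun : A ⊆ ⋃ n, V n := by
    intro B hB
    obtain ⟨I, u, hu, huU⟩ := isOpen_pi_iff.1 hU B (hAU hB)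
    refine Set.mem_iUnion.2 ⟨I.sup id + 1, hB, fun B' hB' => huU ?_⟩
    intro i hi
    have h1 : id i ≤ I.sup id := Finset.le_sup (Finset.mem_coe.1 hi)
    simp only [id] at h1
    have h2 : B' i = B i := hB' ⟨i, by omega⟩
    rw [h2]
    exact (hu i hi).2
  refine (measure_mono hun).trans ?_
  rw [hmono.measure_iUnion]
  refine iSup_le fun n => ?_
  set T : Finset (Fin n → Bool) := Finset.univ.filter (fun τ => cyl τ ⊆ U) with hT
  have h1 : V n ⊆ ⋃ τ ∈ T, A ∩ cyl τ := by
    intro B hB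
    exact Set.mem_iUnion₂.2 ⟨fun i => B i, Finset.mem_filter.2 ⟨Finset.mem_univ _, hB.2⟩,
      hB.1, cyl_cover n B⟩
  calc mu (V n) ≤ mu (⋃ τ ∈ T, A ∩ cyl τ) := measure_mono h1
    _ ≤ ∑ τ ∈ T, mu (A ∩ cyl τ) := measure_biUnion_finset_le _ _
    _ ≤ ∑ τ ∈ T, 3 / 4 * mu (cyl τ) := Finset.sum_le_sum fun τ _ => h n τ
    _ = 3 / 4 * ∑ τ ∈ T, mu (cyl τ) := by rw [Finset.mul_sum]
    _ = 3 / 4 * mu (⋃ τ ∈ T, cyl τ) := by
        rw [measure_biUnion_finset (fun τ _ τ' _ hne => cyl_disj hne) (fun τ _ => cyl_meas τ)]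
    _ ≤ 3 / 4 * mu U := by
        refine mul_le_mul_right (measure_mono ?_) _
        exact Set.iUnion₂_subset fun τ hτ => (Finset.mem_filter.1 hτ).2

theorem ds : S_DS := by
  intro F hF h34 how e
  have h1 : ∀ (n : ℕ) (σ : Fin n → Bool), mu (F e ∩ cyl σ) ≤ 3 / 4 * mu (cyl σ) := by
    intro n σ
    obtain ⟨e', he'⟩ := how e (List.ofFn σ)
    have h2 := h34 e'
    rw [he', overwrite σ (hF e)] at h2
    rw [cyl_mu, ← ENNReal.inv_pow, ← div_eq_mul_inv, ENNReal.le_div_iff_mul_le
      (Or.inl (by positivity)) (Or.inl (by finiteness)), mul_comm]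
    exact h2
  have h3 : mu (F e) ≤ 3 / 4 * mu (F e) := by
    conv_rhs => rw [Set.measure_eq_iInf_isOpen (F e) mu]
    rw [ENNReal.mul_iInf_of_ne (by norm_num) (by finiteness)]
    refine le_iInf fun U => ?_
    rw [ENNReal.mul_iInf_of_ne (by norm_num) (by finiteness)]
    refine le_iInf fun hAU => ?_
    rw [ENNReal.mul_iInf_of_ne (by norm_num) (by finiteness)]
    refine le_iInf fun hU => ?_
    exact le_open h1 hU hAU
  by_contra hne
  have hfin : mu (F e) ≠ ∞ := measure_ne_top _ _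
  have h4 : 3 / 4 * mu (F e) < 1 * mu (F e) := by
    refine (ENNReal.mul_lt_mul_iff_left hne hfin).2 ?_
    rw [ENNReal.div_lt_iff (by norm_num) (by norm_num)]
    norm_num
  rw [one_mul] at h4
  exact absurd h3 (not_le.2 h4)

end Pool.Agent.Q239.NH
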