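import Pool.Agent.Q205.NH.Stm

set_option autoImplicit false

/-! Harmonic count. -/

namespace Pool.Agent.Q239.NH

open Pool.Agent.Q205.NH Complex
open scoped BigOperators ComplexConjugate

lemma geo_zero {w : ℂ} {N : ℕ} (h : w ^ N = 1) (h1 : w ≠ 1) : ∑ j ∈ Finset.range N, w ^ j = 0 := by
  have h2 := geom_sum_mul w N
  rw [h, sub_self] at h2
  rcases mul_eq_zero.1 h2 with h3 | h3
  · exact h3
  · exact absurd (sub_eq_zero.1 h3) h1

lemma parseval (D : Finset ℕ) (z : ℕ → ℂ) (N : ℕ) (hN : 0 < N) (hz : ∀ d ∈ D, z d ^ N = 1)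
    (hi : ∀ d ∈ D, ∀ d' ∈ D, z d = z d' → d = d') :
    ∑ j ∈ Finset.range N, ‖∑ d ∈ D, z d ^ j‖ ^ 2 = (N : ℝ) * D.card := by
  have hn : ∀ d ∈ D, z d * conj (z d) = 1 := by
    intro d hd
    have h1 : ‖z d‖ = 1 := norm_eq_one_of_pow_eq_one (hz d hd) hN.ne'
    rw [Complex.mul_conj, Complex.normSq_eq_norm_sq, h1]; simp
  have h1 : ∀ j ∈ Finset.range N, ((‖∑ d ∈ D, z d ^ j‖ ^ 2 : ℝ) : ℂ) =
      ∑ d ∈ D, ∑ d' ∈ D, (z d * conj (z d')) ^ j := by
    intro j _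
    rw [← Complex.normSq_eq_norm_sq, ← Complex.mul_conj, map_sum, Finset.sum_mul_sum]
    refine Finset.sum_congr rfl fun d _ => Finset.sum_congr rfl fun d' _ => ?_
    rw [map_pow, mul_pow]
  have h2 : ((∑ j ∈ Finset.range N, ‖∑ d ∈ D, z d ^ j‖ ^ 2 : ℝ) : ℂ) = ((N : ℝ) * D.card : ℝ) := by
    push_cast
    have h3 : ∑ j ∈ Finset.range N, ((‖∑ d ∈ D, z d ^ j‖ : ℂ)) ^ 2 =
        ∑ j ∈ Finset.range N, ∑ d ∈ D, ∑ d' ∈ D, (z d * conj (z d')) ^ j := by
      refine Finset.sum_congr rfl fun j hj => ?_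
      rw [← h1 j hj]; push_cast; rfl
    rw [h3, Finset.sum_comm]
    have h4 : ∀ d ∈ D, ∑ j ∈ Finset.range N, ∑ d' ∈ D, (z d * conj (z d')) ^ j = (N : ℂ) := by
      intro d hd
      rw [Finset.sum_comm, Finset.sum_eq_single d]
      · rw [hn d hd]; simp
      · intro d' hd' hne
        refine geo_zero ?_ ?_
        · rw [mul_pow, ← map_pow, hz d hd, hz d' hd']; simp
        · intro h5
          apply hne
          refine (hi d hd d' hd' ?_).symm
          have h6 : z d * (z d' * conj (z d')) = z d' := by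
            calc z d * (z d' * conj (z d')) = z d' * (z d * conj (z d')) := by ring
              _ = z d' := by rw [h5, mul_one]
          rw [hn d' hd', mul_one] at h6
          exact h6
      · intro h; exact absurd hd h
    rw [Finset.sum_congr rfl h4]; simp [mul_comm]
  exact_mod_cast h2

lemma re_ineq {w : ℂ} (h1 : ‖w‖ = 1) (h2 : 0 ≤ w.re) : 1 ≤ 2 * w.re - (w ^ 2).re := by
  have h3 : w.re * w.re + w.im * w.im = 1 := by
    have := Complex.normSq_eq_norm_sq w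
    rw [h1, Complex.normSq_apply] at this
    simpa using this
  have h4 : (w ^ 2).re = w.re * w.re - w.im * w.im := by rw [sq, Complex.mul_re]
  rw [h4]
  have h5 : w.re ≤ 1 := by nlinarith [mul_self_nonneg w.im]
  nlinarith

open Classical in
theorem hc : S_HC := by
  intro K D hD
  rcases Nat.eq_zero_or_pos D.card with h0 | h0
  · rw [h0]; simp
  set N := 2 ^ (K + 1) with hNdef
  have hN : 0 < N := by positivity
  have hNK : N = 2 * 2 ^ K := by rw [hNdef, pow_succ]; ring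
  set ζ : ℂ := Complex.exp (2 * Real.pi * I / N) with hζ
  have hprim : IsPrimitiveRoot ζ N := Complex.isPrimitiveRoot_exp N hN.ne'
  have hζ1 : ‖ζ‖ = 1 := norm_eq_one_of_pow_eq_one hprim.pow_eq_one hN.ne'
  have p1 := parseval D (fun d => ζ ^ d) N hN
    (fun d _ => by rw [← pow_mul, mul_comm, pow_mul, hprim.pow_eq_one, one_pow])
    (fun d hd d' hd' h => hprim.pow_inj (by have := hD d hd; omega) (by have := hD d' hd'; omega) h)
  have p2 := parseval D (fun d => ζ ^ (2 * d)) N hN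
    (fun d _ => by rw [← pow_mul, mul_comm, pow_mul, hprim.pow_eq_one, one_pow])
    (fun d hd d' hd' h => by
      have := hprim.pow_inj (i := 2 * d) (j := 2 * d') (by have := hD d hd; omega)
        (by have := hD d' hd'; omega) h
      omega)
  set B := (Finset.range N).filter (fun j => ∃ r, ∀ d ∈ D, (j * d + r) % N < 2 ^ K) with hB
  have key : ∀ j ∈ B, (D.card : ℝ) ^ 2 ≤
      5 * (‖∑ d ∈ D, (ζ ^ d) ^ j‖ ^ 2 + ‖∑ d ∈ D, (ζ ^ (2 * d)) ^ j‖ ^ 2) := by
    intro j hj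
    obtain ⟨_, r, hr⟩ := Finset.mem_filter.1 hj
    set u : ℂ := ζ ^ r * Complex.exp ((-(Real.pi * ((2 : ℝ) ^ K - 1) / N) : ℝ) * I) with hu
    have hu1 : ‖u‖ = 1 := by
      rw [hu, norm_mul, norm_pow, hζ1, one_pow, one_mul, Complex.norm_exp_ofReal_mul_I]
    have hw1 : ∀ d, ‖(ζ ^ d) ^ j * u‖ = 1 := by
      intro d; rw [norm_mul, norm_pow, norm_pow, hζ1, hu1]; simp
    have hw2 : ∀ d ∈ D, 0 ≤ ((ζ ^ d) ^ j * u).re := by
      intro d hd
      set m := (j * d + r) % N with hm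
      have h1 : (ζ ^ d) ^ j * ζ ^ r = ζ ^ m := by
        rw [← pow_mul, ← pow_add, mul_comm d j]
        conv_lhs => rw [← Nat.div_add_mod (j * d + r) N]
        rw [pow_add, pow_mul, hprim.pow_eq_one, one_pow, one_mul]
      have h2 : (ζ ^ d) ^ j * u = Complex.exp (((2 * Real.pi * m / N -
          Real.pi * ((2 : ℝ) ^ K - 1) / N : ℝ) : ℂ) * I) := by
        rw [hu, ← mul_assoc, h1, hζ, ← Complex.exp_nat_mul, ← Complex.exp_add]
        congr 1
        push_cast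
        ring
      rw [h2, Complex.exp_ofReal_mul_I_re]
      have hNr : (N : ℝ) = 2 * 2 ^ K := by rw [hNK]; push_cast; rfl
      have hK : (0 : ℝ) < 2 ^ K := by positivity
      have hm1 : (m : ℝ) ≤ 2 ^ K - 1 := by
        have := hr d hd
        have h3 : m + 1 ≤ 2 ^ K := this
        have h4 : ((m + 1 : ℕ) : ℝ) ≤ ((2 ^ K : ℕ) : ℝ) := by exact_mod_cast h3
        push_cast at h4
        linarith
      have hm0 : (0 : ℝ) ≤ m := Nat.cast_nonneg m
      have hpi := Real.pi_pos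
      apply Real.cos_nonneg_of_mem_Icc
      have e1 : 2 * Real.pi * m / N - Real.pi * ((2 : ℝ) ^ K - 1) / N =
          Real.pi * (2 * m - (2 ^ K - 1)) / (2 * 2 ^ K) := by rw [hNr]; ring
      rw [e1]
      constructor
      · rw [le_div_iff₀ (by positivity)]
        nlinarith
      · rw [div_le_iff₀ (by positivity)]
        nlinarith
    have h3 : (D.card : ℝ) ≤ 2 * ‖∑ d ∈ D, (ζ ^ d) ^ j‖ + ‖∑ d ∈ D, (ζ ^ (2 * d)) ^ j‖ := by
      have h4 : (D.card : ℝ) ≤ ∑ d ∈ D, (2 * ((ζ ^ d) ^ j * u).re - (((ζ ^ d) ^ j * u) ^ 2).re) := by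
        have := Finset.sum_le_sum (fun d hd => re_ineq (hw1 d) (hw2 d hd))
        simpa using this
      rw [Finset.sum_sub_distrib, ← Finset.mul_sum, ← Complex.re_sum, ← Complex.re_sum,
        ← Finset.sum_mul] at h4
      have h5 : ∑ d ∈ D, ((ζ ^ d) ^ j * u) ^ 2 = (∑ d ∈ D, (ζ ^ (2 * d)) ^ j) * u ^ 2 := by
        rw [Finset.sum_mul]
        refine Finset.sum_congr rfl fun d _ => ?_
        rw [mul_pow]
        congr 1
        rw [← pow_mul, ← pow_mul, ← pow_mul]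
        congr 1; ring
      rw [h5] at h4
      have h6 : ((∑ d ∈ D, (ζ ^ d) ^ j) * u).re ≤ ‖∑ d ∈ D, (ζ ^ d) ^ j‖ := by
        refine (Complex.re_le_norm _).trans ?_
        rw [norm_mul, hu1, mul_one]
      have h7 : -((∑ d ∈ D, (ζ ^ (2 * d)) ^ j) * u ^ 2).re ≤ ‖∑ d ∈ D, (ζ ^ (2 * d)) ^ j‖ := by
        refine (neg_le_abs _).trans ((Complex.abs_re_le_norm _).trans ?_)
        rw [norm_mul, norm_pow, hu1]; simp
      linarith
    have ha := norm_nonneg (∑ d ∈ D, (ζ ^ d) ^ j)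
    have hb := norm_nonneg (∑ d ∈ D, (ζ ^ (2 * d)) ^ j)
    have hc : (0 : ℝ) ≤ D.card := Nat.cast_nonneg _
    nlinarith [sq_nonneg (‖∑ d ∈ D, (ζ ^ d) ^ j‖ - 2 * ‖∑ d ∈ D, (ζ ^ (2 * d)) ^ j‖)]
  have hfin : (B.card : ℝ) * (D.card : ℝ) ^ 2 ≤ 10 * N * D.card := by
    calc (B.card : ℝ) * (D.card : ℝ) ^ 2 = ∑ j ∈ B, (D.card : ℝ) ^ 2 := by simp
      _ ≤ ∑ j ∈ B, 5 * (‖∑ d ∈ D, (ζ ^ d) ^ j‖ ^ 2 + ‖∑ d ∈ D, (ζ ^ (2 * d)) ^ j‖ ^ 2) :=
          Finset.sum_le_sum key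
      _ ≤ ∑ j ∈ Finset.range N, 5 * (‖∑ d ∈ D, (ζ ^ d) ^ j‖ ^ 2 +
            ‖∑ d ∈ D, (ζ ^ (2 * d)) ^ j‖ ^ 2) :=
          Finset.sum_le_sum_of_subset_of_nonneg (Finset.filter_subset _ _)
            (fun _ _ _ => by positivity)
      _ = 10 * N * D.card := by
          rw [← Finset.mul_sum, Finset.sum_add_distrib, p1, p2]; ring
  have hD0 : (0 : ℝ) < D.card := by exact_mod_cast h0
  have h8 : (B.card : ℝ) * D.card ≤ 10 * N := by
    by_contra hcon
    push Not at hcon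
    nlinarith
  exact_mod_cast h8

end Pool.Agent.Q239.NH
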