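import Pool.Agent.Q205.NH.Stm

set_option autoImplicit false

/-! The colouring kills good sets. -/

namespace Pool.Agent.Q239.NH

open Pool.Agent.Q205.NH

variable {CB : ℕ → ℕ → ℕ → Bool}

lemma fw_zero {e M t : ℕ} (h : ∀ w < t, CB e M w = false) : fw CB e M t = 0 := by
  induction t with
  | zero => rfl
  | succ t ih =>
    have h1 := ih (fun w hw => h w (by omega))
    rw [fw, if_pos h1, if_neg]
    rw [h t (by omega)]; simp

lemma fw_least {e M w : ℕ} (h : CB e M w = true) (hl : ∀ w' < w, CB e M w' = false) :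
    ∀ t, w < t → fw CB e M t = w + 1 := by
  intro t
  induction t with
  | zero => intro h'; omega
  | succ t ih =>
    intro ht
    rcases Nat.lt_or_ge w t with h1 | h1
    · have h2 := ih h1
      rw [fw, if_neg (by omega), h2]
    · obtain rfl : w = t := by omega
      rw [fw, if_pos (fw_zero hl), if_pos h]

lemma Mv_pow (t i : ℕ) : ∃ a, Mv CB t i = 2 ^ a := by
  induction i with
  | zero => exact ⟨0, rfl⟩
  | succ i ih =>
    obtain ⟨a, ha⟩ := ih
    rw [Mv]
    split_ifs with h
    · exact ⟨a, ha⟩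
    · rw [ha, ← pow_add]; exact ⟨_, rfl⟩

lemma Mv_pos (t i : ℕ) : 0 < Mv CB t i := by
  obtain ⟨a, ha⟩ := Mv_pow (CB := CB) t i
  rw [ha]; positivity

lemma Mv_succ_dvd (t i : ℕ) : Mv CB t i ∣ Mv CB t (i + 1) := by
  rw [Mv]
  split_ifs with h
  · exact dvd_rfl
  · exact dvd_mul_right _ _

lemma Mv_dvd (t : ℕ) {i i' : ℕ} (h : i ≤ i') : Mv CB t i ∣ Mv CB t i' := by
  induction i', h using Nat.le_induction with
  | base => exact dvd_rfl
  | succ n _ ih => exact ih.trans (Mv_succ_dvd t n)

lemma stab (CB : ℕ → ℕ → ℕ → Bool) (i : ℕ) : ∃ T m, ∀ t, T ≤ t → Mv CB t i = m := by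
  induction i with
  | zero => exact ⟨0, 1, fun t _ => rfl⟩
  | succ i ih =>
    obtain ⟨T, m, h⟩ := ih
    by_cases hw : ∃ w, CB i m w = true
    · classical
      have h1 := Nat.find_spec hw
      have h2 : ∀ w' < Nat.find hw, CB i m w' = false := fun w' hw' => by
        have := Nat.find_min hw hw'
        simpa using this
      refine ⟨max T (Nat.find hw + 1), m * 2 ^ (wK (Nat.find hw) + 1 + wL (Nat.find hw)), ?_⟩
      intro t ht
      have h3 := h t (le_trans (le_max_left _ _) ht)
      have h4 := fw_least h1 h2 t (lt_of_lt_of_le (Nat.lt_succ_self _)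
        (le_trans (le_max_right _ _) ht))
      rw [Mv, h3, h4, if_neg (by omega)]
      simp
    · push Not at hw
      refine ⟨T, m, fun t ht => ?_⟩
      rw [Mv, h t ht, if_pos]
      exact fw_zero (fun w _ => by simpa using hw w)

lemma side_congr {K x x' : ℕ} (h : x % 2 ^ (K + 1) = x' % 2 ^ (K + 1)) : side K x = side K x' := by
  unfold side; rw [h]

lemma log_eq {M' T x x' : ℕ} (hM : 0 < M') (hd : M' ∣ 2 ^ T) (hx : 2 ^ T ≤ x) (hx' : 2 ^ T ≤ x')
    (h : x / M' = x' / M') : Nat.log 2 x = Nat.log 2 x' ∧ T ≤ Nat.log 2 x := by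
  have key : ∀ u v, 2 ^ T ≤ u → 2 ^ T ≤ v → u / M' = v / M' →
      T ≤ Nat.log 2 u ∧ Nat.log 2 u ≤ Nat.log 2 v := by
    intro u v hu hv huv
    have hu0 : u ≠ 0 := by have : 0 < 2 ^ T := by positivity
                           omega
    have hv0 : v ≠ 0 := by have : 0 < 2 ^ T := by positivity
                           omega
    have h1 : T ≤ Nat.log 2 u := (Nat.le_log_iff_pow_le (by norm_num) hu0).2 hu
    refine ⟨h1, ?_⟩
    rw [Nat.le_log_iff_pow_le (by norm_num) hv0]
    have h2 : 2 ^ Nat.log 2 u ≤ u := (Nat.le_log_iff_pow_le (by norm_num) hu0).1 le_rfl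
    obtain ⟨c, hc⟩ : M' ∣ 2 ^ Nat.log 2 u := hd.trans (pow_dvd_pow 2 h1)
    rw [hc] at h2 ⊢
    have h3 : c ≤ u / M' := (Nat.le_div_iff_mul_le hM).2 (by rw [mul_comm]; exact h2)
    rw [huv] at h3
    have h4 := (Nat.le_div_iff_mul_le hM).1 h3
    rwa [mul_comm] at h4
  have a := key x x' hx hx' h
  have b := key x' x hx' hx h.symm
  exact ⟨le_antisymm a.2 b.2, a.1⟩

theorem kl : S_KL := by
  intro CB e
  choose T m hT using stab CB
  set T0 := (Finset.range (e + 2)).sup T with hT0
  have hst : ∀ i ≤ e + 1, ∀ t, T0 ≤ t → Mv CB t i = m i := by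
    intro i hi t ht
    refine hT i t (le_trans ?_ ht)
    exact Finset.le_sup (f := T) (Finset.mem_range.2 (by omega))
  have hpos : 0 < m e := by
    rw [← hst e (by omega) T0 le_rfl]; exact Mv_pos _ _
  refine ⟨m e, hpos, ?_⟩
  by_cases hw : ∃ w, CB e (m e) w = true
  swap
  · left
    push Not at hw
    intro w; simpa using hw w
  right
  classical
  set w := Nat.find hw with hwdef
  have hw1 : CB e (m e) w = true := Nat.find_spec hw
  have hw2 : ∀ w' < w, CB e (m e) w' = false := fun w' hw' => by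
    have := Nat.find_min hw hw'
    simpa using this
  refine ⟨w, hw1, ?_⟩
  intro D hDL hgood
  set M := m e with hM
  set K := wK w with hK
  set j := wj w with hj
  set L := wL w with hL
  set M' := M * 2 ^ (K + 1 + L) with hM'
  have hM'pos : 0 < M' := by positivity
  set Ts := max (max T0 (w + 1)) (max (e + 1) M') with hTs
  have hTs1 : T0 ≤ Ts := le_trans (le_max_left _ _) (le_max_left _ _)
  have hTs2 : w + 1 ≤ Ts := le_trans (le_max_right _ _) (le_max_left _ _)
  have hTs3 : e + 1 ≤ Ts := le_trans (le_max_left _ _) (le_max_right _ _)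
  have hTs4 : M' ≤ Ts := le_trans (le_max_right _ _) (le_max_right _ _)
  have hMt : ∀ t, Ts ≤ t → Mv CB t e = M := fun t ht => hst e (by omega) t (hTs1.trans ht)
  have hft : ∀ t, Ts ≤ t → fw CB e M t = w + 1 := fun t ht => fw_least hw1 hw2 t (by omega)
  have hMt' : ∀ t, Ts ≤ t → Mv CB t (e + 1) = M' := by
    intro t ht
    rw [Mv, hMt t ht, hft t ht, if_neg (by omega)]
    simp [hM', hK, hL]
  have hM'2 : M' ≤ 2 ^ Ts := le_trans hTs4 (Nat.lt_two_pow_self).le
  have hM'd : M' ∣ 2 ^ Ts := by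
    obtain ⟨a, ha⟩ := Mv_pow (CB := CB) Ts (e + 1)
    rw [hMt' Ts le_rfl] at ha
    rw [ha] at hM'2 ⊢
    exact pow_dvd_pow 2 ((Nat.pow_le_pow_iff_right (by norm_num)).1 hM'2)
  have hLM : L < M' := by
    have h1 : L < 2 ^ L := Nat.lt_two_pow_self
    have h2 : 2 ^ L ≤ M' := by
      rw [hM', pow_add]
      calc 2 ^ L = 1 * (1 * 2 ^ L) := by ring
        _ ≤ M * (2 ^ (K + 1) * 2 ^ L) := Nat.mul_le_mul hpos
            (Nat.mul_le_mul_right _ Nat.one_le_two_pow)
    omega
  obtain ⟨hcong, hG⟩ := hgood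
  obtain ⟨d0, hd0⟩ : ∃ d, d ∈ D := by
    rcases hG 0 (Nat.zero_le _) 0 (by positivity) with ⟨d, hd, _⟩ | ⟨d, hd, _⟩
    · exact ⟨d, hd⟩
    · exact ⟨d, hd⟩
  refine ⟨2 ^ Ts, fun y hy => ?_⟩
  set q := min (M' - y % M') L with hq
  set ρ := d0 % M with hρ
  set r := (j * ((ρ + y) / M)) % 2 ^ (K + 1) with hr
  have hyM : y % M' < M' := Nat.mod_lt _ hM'pos
  have hdiv1 : ∀ d ∈ D, d < q → (d + y) / M' = y / M' := by
    intro d hd hdq
    have h1 : d + y % M' < M' := by
      have := lt_of_lt_of_le hdq (min_le_left _ _)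
      omega
    have h2 : d + y = M' * (y / M') + (d + y % M') := by
      have := Nat.div_add_mod y M'
      omega
    rw [h2, Nat.mul_add_div hM'pos, Nat.div_eq_of_lt h1, add_zero]
  have hdiv2 : ∀ d ∈ D, q ≤ d → (d + y) / M' = y / M' + 1 := by
    intro d hd hdq
    have h0 := hDL d hd
    have h1 : M' - y % M' ≤ d := by
      rcases min_le_iff.1 (le_of_eq (rfl : q = q)) with h3 | h3
      · rcases le_total (M' - y % M') L with h4 | h4
        · rw [hq, min_eq_left h4] at hdq; exact hdq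
        · rw [hq, min_eq_right h4] at hdq; omega
      · rcases le_total (M' - y % M') L with h4 | h4
        · rw [hq, min_eq_left h4] at hdq; exact hdq
        · rw [hq, min_eq_right h4] at hdq; omega
    have h2 : d + y = M' * (y / M' + 1) + (d + y % M' - M') := by
      have := Nat.div_add_mod y M'
      rw [mul_add, mul_one]
      omega
    have h3 : d + y % M' - M' < M' := by omega
    rw [h2, Nat.mul_add_div hM'pos, Nat.div_eq_of_lt h3, add_zero]
  have hside : ∀ d ∈ D, side K (j * ((d + y) / M)) = side K (j * (d / M) + r) := by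
    intro d hd
    have h1 : d % M = ρ := hcong d hd d0 hd0
    have h2 : d + y = M * (d / M) + (ρ + y) := by
      have := Nat.div_add_mod d M
      rw [h1] at this
      omega
    have h3 : (d + y) / M = d / M + (ρ + y) / M := by
      conv_lhs => rw [h2]
      rw [Nat.mul_add_div hpos]
    apply side_congr
    rw [h3, mul_add, hr, Nat.add_mod_mod]
  -- the two elements
  obtain ⟨d, hd, d', hd', hsame, hne⟩ : ∃ d ∈ D, ∃ d' ∈ D, (d + y) / M' = (d' + y) / M' ∧
      side K (j * (d / M) + r) ≠ side K (j * (d' / M) + r) := by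
    rcases hG q (min_le_right _ _) r (Nat.mod_lt _ (by positivity)) with
      ⟨d, hd, d', hd', h1, h2, h3⟩ | ⟨d, hd, d', hd', h1, h2, h3⟩
    · exact ⟨d, hd, d', hd', by rw [hdiv1 d hd h1, hdiv1 d' hd' h2], h3⟩
    · exact ⟨d, hd, d', hd', by rw [hdiv2 d hd h1, hdiv2 d' hd' h2], h3⟩
  refine ⟨d, hd, d', hd', ?_⟩
  rw [← hside d hd, ← hside d' hd'] at hne
  have hxM : (d + y) % M = (d' + y) % M := by
    rw [Nat.add_mod, hcong d hd d' hd', ← Nat.add_mod]
  obtain ⟨hlog, htT⟩ := log_eq hM'pos hM'd (x := d + y) (x' := d' + y) (by omega) (by omega) hsame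
  unfold col
  rw [← hlog]
  set t := Nat.log 2 (d + y) with ht
  set x := d + y with hx
  set x' := d' + y with hx'
  have hothers : ∀ i, i ≠ e → ctr CB t i x = ctr CB t i x' := by
    intro i hi
    unfold ctr
    by_cases hc : fw CB i (Mv CB t i) t ≠ 0 ∧ Mv CB t (i + 1) ≤ 2 ^ t
    · rw [if_pos hc, if_pos hc]
      congr 1
      rcases Nat.lt_or_gt_of_ne hi with hlt | hgt
      · have h1 : Mv CB t (i + 1) ∣ Mv CB t e := Mv_dvd t hlt
        rw [hMt t htT] at h1
        have h2 : Mv CB t (i + 1) = Mv CB t i *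
            2 ^ (wK (fw CB i (Mv CB t i) t - 1) + 1 + wL (fw CB i (Mv CB t i) t - 1)) := by
          rw [Mv, if_neg hc.1]
        set Ki := wK (fw CB i (Mv CB t i) t - 1) with hKi
        set Mi := Mv CB t i with hMi
        have h3 : Mi * 2 ^ (Ki + 1) ∣ M := by
          refine dvd_trans ?_ h1
          rw [h2, pow_add _ (Ki + 1), ← mul_assoc]
          exact dvd_mul_right _ _
        have h4 : x % (Mi * 2 ^ (Ki + 1)) = x' % (Mi * 2 ^ (Ki + 1)) := by
          rw [← Nat.mod_mod_of_dvd x h3, ← Nat.mod_mod_of_dvd x' h3, hxM]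
        have h5 : (x / Mi) % 2 ^ (Ki + 1) = (x' / Mi) % 2 ^ (Ki + 1) := by
          rw [← Nat.mod_mul_right_div_self, ← Nat.mod_mul_right_div_self, h4]
        apply side_congr
        rw [Nat.mul_mod, h5, ← Nat.mul_mod]
      · have h1 : M' ∣ Mv CB t i := by
          rw [← hMt' t htT]; exact Mv_dvd t hgt
        obtain ⟨c, hc'⟩ := h1
        have h6 : x / Mv CB t i = x' / Mv CB t i := by
          rw [hc', ← Nat.div_div_eq_div_mul x M' c, ← Nat.div_div_eq_div_mul x' M' c, hsame]
        rw [h6]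
    · rw [if_neg hc, if_neg hc]
  have he1 : ∀ z, ctr CB t e z = (side K (j * (z / M))).toNat := by
    intro z
    unfold ctr
    rw [hMt t htT, hft t htT, hMt' t htT, if_pos]
    · simp [hK, hj]
    · exact ⟨by omega, hM'2.trans (Nat.pow_le_pow_right (by norm_num) htT)⟩
  have het : e ∈ Finset.range t := Finset.mem_range.2 (by omega)
  have hs : ∑ i ∈ (Finset.range t).erase e, ctr CB t i x =
      ∑ i ∈ (Finset.range t).erase e, ctr CB t i x' :=
    Finset.sum_congr rfl fun i hi => hothers i (Finset.ne_of_mem_erase hi)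
  rw [← Finset.add_sum_erase _ (fun i => ctr CB t i x) het,
    ← Finset.add_sum_erase _ (fun i => ctr CB t i x') het, he1, he1, hs]
  set R := ∑ i ∈ (Finset.range t).erase e, ctr CB t i x' with hR
  intro hcon
  rw [decide_eq_decide] at hcon
  revert hne hcon
  cases side K (j * (x / M)) <;> cases side K (j * (x' / M)) <;> simp <;> omega

end Pool.Agent.Q239.NH
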