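import Pool.Agent.Q205.NH.Stm

set_option autoImplicit false

/-! Pigeonhole and continuity of the measure. -/

namespace Pool.Agent.Q239.NH

open Pool.Agent.Q205.NH Pool.Agent.H715R3.Disp MeasureTheory
open scoped ENNReal

lemma bits_ofFn (B : ℕ → Bool) (L : ℕ) : bits B L = List.ofFn (fun i : Fin L => B i) := by
  apply List.ext_getElem
  · simp [bits]
  · intro i h1 h2
    simp [bits]

lemma bits_prefix (B : ℕ → Bool) {L L' : ℕ} (h : L ≤ L') : bits B L <+: bits B L' := by
  obtain ⟨k, rfl⟩ := Nat.exists_eq_add_of_le h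
  unfold bits
  rw [List.range_add, List.map_append]
  exact List.prefix_append _ _

/-- elements below `L` enumerated with the string -/
def XL (E : ℕ → List Bool → ℕ → Bool) (e L : ℕ) (ρ : List Bool) : Finset ℕ :=
  (Finset.range L).filter (fun x => E e ρ x = true)

open Classical in
theorem pg (h : S_AV) : S_PG := by
  intro E hE e M hM hmu
  set m := 160 * M with hm
  set A : ℕ → Set (ℕ → Bool) := fun L => {B | m ≤ (XL E e L (bits B L)).card} with hA
  have hmono : Monotone A := by
    intro L L' hL B hB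
    refine le_trans hB (Finset.card_le_card ?_)
    intro x hx
    simp only [XL, Finset.mem_filter, Finset.mem_range] at hx ⊢
    exact ⟨by omega, hE.mono e _ _ x (bits_prefix B hL) hx.2⟩
  have hsub : {B | (HS E e B).Infinite} ⊆ ⋃ L, A L := by
    intro B hB
    obtain ⟨t, ht, hc⟩ := Set.Infinite.exists_subset_card_eq hB m
    have h1 : ∀ x ∈ t, ∃ n, E e (bits B n) x = true := fun x hx => ht hx
    choose! g hg using h1
    refine Set.mem_iUnion.2 ⟨t.sup g + t.sup id + 1, ?_⟩
    change m ≤ _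
    rw [← hc]
    apply Finset.card_le_card
    intro x hx
    have h2 : g x ≤ t.sup g := Finset.le_sup hx
    have h3 : id x ≤ t.sup id := Finset.le_sup hx
    simp only [id] at h3
    simp only [XL, Finset.mem_filter, Finset.mem_range]
    exact ⟨by omega, hE.mono e _ _ x (bits_prefix B (by omega)) (hg x hx)⟩
  have h2 : 3 / 4 < mu (⋃ L, A L) := lt_of_lt_of_le hmu (measure_mono hsub)
  rw [hmono.measure_iUnion, lt_iSup_iff] at h2
  obtain ⟨L, hL⟩ := h2
  set S : Finset (Fin L → Bool) :=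
    Finset.univ.filter (fun σ => m ≤ (XL E e L (List.ofFn σ)).card) with hS
  have h3 : mu (A L) ≤ (S.card : ℝ≥0∞) * (2⁻¹ : ℝ≥0∞) ^ L := by
    have h4 : A L ⊆ ⋃ σ ∈ S, {B : ℕ → Bool | ∀ i < L, B i =
        (fun n => if hn : n < L then σ ⟨n, hn⟩ else false) i} := by
      intro B hB
      refine Set.mem_iUnion₂.2 ⟨fun i => B i, ?_, ?_⟩
      · rw [hS, Finset.mem_filter]
        refine ⟨Finset.mem_univ _, ?_⟩
        rw [← bits_ofFn]; exact hB
      · intro i hi
        simp [hi]
    refine (measure_mono h4).trans ((measure_biUnion_finset_le _ _).trans ?_)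
    simp only [cyl_measure]
    rw [Finset.sum_const, nsmul_eq_mul]
  have h5 : 3 * 2 ^ L < 4 * S.card := by
    have h6 := lt_of_lt_of_le hL h3
    rw [← ENNReal.inv_pow, ← div_eq_mul_inv] at h6
    rw [ENNReal.lt_div_iff_mul_lt (Or.inl (by positivity)) (Or.inl (by finiteness))] at h6
    have h7 : (3 : ℝ≥0∞) * 2 ^ L < 4 * (S.card : ℝ≥0∞) := by
      calc (3 : ℝ≥0∞) * 2 ^ L = 4 * (3 / 4 * 2 ^ L) := by
            rw [← mul_assoc, ENNReal.mul_div_cancel (by norm_num) (by norm_num)]
        _ < 4 * (S.card : ℝ≥0∞) := by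
            rw [ENNReal.mul_lt_mul_iff_right (by norm_num) (by norm_num)]; exact h6
    exact_mod_cast h7
  have hpig : ∀ σ ∈ S, ∃ D : Finset ℕ, D ⊆ XL E e L (List.ofFn σ) ∧ D.card = 160 ∧
      ∀ d ∈ D, ∀ d' ∈ D, d % M = d' % M := by
    intro σ hσ
    have h8 : m ≤ (XL E e L (List.ofFn σ)).card := (Finset.mem_filter.1 hσ).2
    obtain ⟨y, _, hy⟩ := Finset.exists_le_card_fiber_of_mul_le_card_of_maps_to
      (s := XL E e L (List.ofFn σ)) (t := Finset.range M) (f := (· % M)) (n := 160)
      (fun a _ => Finset.mem_range.2 (Nat.mod_lt _ hM)) ⟨0, Finset.mem_range.2 hM⟩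
      (by rw [Finset.card_range]; omega)
    obtain ⟨D, hD1, hD2⟩ := Finset.exists_subset_card_eq hy
    refine ⟨D, hD1.trans (Finset.filter_subset _ _), hD2, ?_⟩
    intro d hd d' hd'
    have a1 := (Finset.mem_filter.1 (hD1 hd)).2
    have a2 := (Finset.mem_filter.1 (hD1 hd')).2
    exact a1.trans a2.symm
  choose! D hD1 hD2 hD3 using hpig
  obtain ⟨K, j, _, hj⟩ := h (Fin L → Bool) M L hM S D (fun σ hσ => ⟨hD2 σ hσ, fun d hd =>
    Finset.mem_range.1 (Finset.mem_filter.1 (hD1 σ hσ hd)).1, hD3 σ hσ⟩)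
  refine ⟨K, j, L, ?_⟩
  unfold Pool.Agent.Q205.NH.Cond
  have h9 := Finset.card_filter_add_card_filter_not (s := S) (fun σ => Good M K j L (D σ))
  have h10 : (S.filter (fun σ => Good M K j L (D σ))).card ≤
      (Finset.univ.filter fun σ : Fin L → Bool => GoodStr E e M K j L (List.ofFn σ)).card := by
    apply Finset.card_le_card
    intro σ hσ
    obtain ⟨a1, a2⟩ := Finset.mem_filter.1 hσ
    refine Finset.mem_filter.2 ⟨Finset.mem_univ _, D σ, a2, fun d hd => ?_⟩
    have a3 := Finset.mem_filter.1 (hD1 σ a1 hd)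
    exact ⟨Finset.mem_range.1 a3.1, a3.2⟩
  have h11 : 4 * (S.filter (fun σ => ¬ Good M K j L (D σ))).card ≤ S.card := by convert hj
  have h12 : (S.filter (fun σ => Good M K j L (D σ))).card +
    (S.filter (fun σ => ¬ Good M K j L (D σ))).card = S.card := by convert h9
  have h13 : 2 ^ L ≤ 2 * (S.filter (fun σ => Good M K j L (D σ))).card := by omega
  refine h13.trans (Nat.mul_le_mul_left 2 ?_)
  convert h10

end Pool.Agent.Q239.NH
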